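import Pool.Agent.H599.SP.Stm

set_option autoImplicit false

/-!
# Compactness of the torus and the projection to the places with residue in `R`
-/

open Polynomial Filter Topology
open scoped ENNReal NNReal
open Pool.Agent.H599.Tor

namespace Pool.Agent.H599.SP

namespace CMPaux

variable {F : Type} [Field F] [Fintype F]

lemma exists_lt {ε : ℝ} (hε : 0 < ε) : ∃ L : ℕ, ((Fintype.card F : ℝ)⁻¹) ^ (L + 1) < ε := by
  have hq : (1 : ℝ) < Fintype.card F := by exact_mod_cast Fintype.one_lt_card
  have hqi0 : (0:ℝ) < (Fintype.card F : ℝ)⁻¹ := by positivity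
  have hqi1 : (Fintype.card F : ℝ)⁻¹ < 1 := inv_lt_one_of_one_lt₀ hq
  obtain ⟨L, hL⟩ := exists_pow_lt_of_lt_one hε hqi1
  refine ⟨L, lt_of_le_of_lt ?_ hL⟩
  exact pow_le_pow_of_le_one hqi0.le hqi1.le (Nat.le_succ L)

lemma compact_univ : IsCompact (Set.univ : Set (Torus F)) := by
  letI : TopologicalSpace F := ⊥
  haveI : DiscreteTopology F := ⟨rfl⟩
  haveI : CompactSpace F := Finite.compactSpace
  have hc : Continuous (fun w : ℕ → F => (⟨w⟩ : Torus F)) := by
    rw [Metric.continuous_iff']
    intro a ε hε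
    obtain ⟨L, hL⟩ := exists_lt (F := F) hε
    have h1 : ∀ n ∈ Finset.range L, ∀ᶠ w : ℕ → F in 𝓝 a, w n = a n := by
      intro n _
      have h2 : Tendsto (fun w : ℕ → F => w n) (𝓝 a) (𝓝 (a n)) := (continuous_apply n).tendsto a
      exact h2 ((isOpen_discrete {a n}).mem_nhds rfl)
    have h3 := (Filter.eventually_all_finset (Finset.range L)).2 h1
    filter_upwards [h3] with w hw
    refine lt_of_le_of_lt ?_ hL
    exact (distance_le _ _ L).2 fun n hn => hw n (Finset.mem_range.2 hn)
  have h4 : Set.range (fun w : ℕ → F => (⟨w⟩ : Torus F)) = Set.univ := by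
    ext y
    simp only [Set.mem_range, Set.mem_univ, iff_true]
    exact ⟨y.digit, rfl⟩
  rw [← h4]
  exact isCompact_range hc

open Classical in
/-- the projection -/
noncomputable def pr (Q : ℕ) (R : Finset ℕ) (y : Torus F) : Torus F :=
  ⟨fun n => if n % Q ∈ R then y.digit n else 0⟩

lemma pr_dist (Q : ℕ) (R : Finset ℕ) (y z : Torus F) : dist (pr Q R y) (pr Q R z) ≤ dist y z := by
  classical
  by_cases h : ∃ n, y.digit n ≠ z.digit n
  · have e : dist y z = ((Fintype.card F : ℝ)⁻¹) ^ (Nat.find h + 1) := by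
      show distance y z = _
      unfold distance
      rw [dif_pos h]
    rw [e]
    refine (distance_le _ _ _).2 fun n hn => ?_
    have h1 : y.digit n = z.digit n := by
      by_contra h2
      exact Nat.find_min h hn h2
    simp only [pr, h1]
  · have h1 : y = z := by
      ext n
      by_contra h2
      exact h ⟨n, h2⟩
    rw [h1, dist_self, dist_self]

end CMPaux

open CMPaux in
theorem t_CMP : S_CMP := by
  intro F _ _ E Q R _ hE
  haveI : CompactSpace (Torus F) := ⟨compact_univ⟩
  have hlip : LipschitzWith 1 (pr (F := F) Q R) := LipschitzWith.mk_one (pr_dist Q R)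
  have hK : IsCompact (pr Q R '' closure E) := isClosed_closure.isCompact.image hlip.continuous
  have hsub : Sup (F := F) Q R ⊆ pr Q R '' closure E := by
    intro v hv
    rw [← hK.isClosed.closure_eq, Metric.mem_closure_iff]
    intro ε hε
    obtain ⟨L, hL⟩ := exists_lt (F := F) hε
    obtain ⟨y, hy, hyw⟩ := hE L v.digit
    refine ⟨pr Q R y, ⟨y, subset_closure hy, rfl⟩, lt_of_le_of_lt ?_ hL⟩
    refine (distance_le _ _ L).2 fun n hn => ?_
    by_cases h1 : n % Q ∈ R
    · simp only [pr, if_pos h1]
      exact (hyw n hn h1).symm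
    · simp only [pr, if_neg h1]
      exact hv n h1
  exact (dimH_mono hsub).trans (hlip.dimH_image_le _)

end Pool.Agent.H599.SP
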