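import Pool.Agent.H599.Tor

set_option autoImplicit false

/-!
# Statements for the spectrum of the dimensions (function field analogue of Furstenberg's conjecture)
-/

open Polynomial Filter Topology
open scoped ENNReal NNReal
open Pool.Agent.H599.Tor

namespace Pool.Agent.H599.SP

/-- LB: lower bound for the dimension of `Sup Q R` -/
def S_LB : Prop := ∀ (F : Type) [Field F] [Fintype F] (Q : ℕ) (R : Finset ℕ), 1 ≤ Q → (∀ r ∈ R, r < Q) →
  ((R.card : ℝ≥0∞) / (Q : ℝ≥0∞)) ≤ dimH (Sup (F := F) Q R)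

/-- GEN: an element supported in `K` with a rich orbit for every nonconstant polynomial -/
def S_GEN : Prop := ∀ (F : Type) [Field F] [Fintype F] (p : ℕ) [Fact p.Prime] [CharP F p] (K : Set ℕ),
  ∃ x : ℕ → F, (∀ n, n ∉ K → x n = 0) ∧
    ∀ (k : ℕ) (A : F[X]), 1 ≤ A.natDegree → ∀ (L : ℕ) (w : ℕ → F), ∃ e : ℕ,
      ∀ n < L, (∀ l, p ^ k * l + n % p ^ k ∈ K) → Pool.Agent.H599.FF.ml (A ^ e) x n = w n

/-- CMP: compactness and the projection to the places with residue in `R` -/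
def S_CMP : Prop := ∀ (F : Type) [Field F] [Fintype F] (E : Set (Torus F)) (Q : ℕ) (R : Finset ℕ), 1 ≤ Q →
  (∀ (L : ℕ) (w : ℕ → F), ∃ y ∈ E, ∀ n < L, n % Q ∈ R → y.digit n = w n) →
  dimH (Sup (F := F) Q R) ≤ dimH (closure E)

/-- KS: sets of places of density `α`, well distributed in the `p`-adic sense -/
def S_KS : Prop := ∀ (p : ℕ), 2 ≤ p → ∀ α : ℝ, 0 ≤ α → α ≤ 1 → ∃ K : Set ℕ, ∀ k : ℕ,
  (({r : ℕ | r < p ^ k ∧ ∃ l, p ^ k * l + r ∈ K}.ncard : ℝ) ≤ α * (p : ℝ) ^ k + 1) ∧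
  (α * (p : ℝ) ^ k - 1 ≤ ({r : ℕ | r < p ^ k ∧ ∀ l, p ^ k * l + r ∈ K}.ncard : ℝ))

/-- RAT: the orbits of rational elements -/
def S_RAT : Prop := ∀ (F : Type) [Field F] [Fintype F] (x : Torus F) (B : F[X]), B ≠ 0 →
  (∀ n, (mul B x).digit n = 0) → ∀ (m : ℕ) (A : Fin m → F[X]), dimH (closure (orbit A x)) = 0

end Pool.Agent.H599.SP
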