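import Pool.Agent.H599.SP.Stm

set_option autoImplicit false
set_option linter.unusedSectionVars false

/-!
# LB: lower bound for the dimension of `Sup Q R`
-/

open Polynomial Filter Topology
open scoped ENNReal NNReal
open Pool.Agent.H599.Tor

namespace Pool.Agent.H599.SP

namespace LBaux

variable {F : Type} [Field F] [Fintype F]

/-- the `j`-th place -/
noncomputable def place (Q : ℕ) (R : Finset ℕ) (hR : 0 < R.card) (j : ℕ) : ℕ :=
  Q * (j / R.card) + (R.equivFin.symm ⟨j % R.card, Nat.mod_lt _ hR⟩ : ℕ)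

lemma place_div {Q : ℕ} {R : Finset ℕ} (hR : 0 < R.card) (hQ : 1 ≤ Q) (hr : ∀ r ∈ R, r < Q)
    (j : ℕ) : place Q R hR j / Q = j / R.card := by
  unfold place
  have h := hr _ (R.equivFin.symm ⟨j % R.card, Nat.mod_lt _ hR⟩).2
  rw [Nat.mul_add_div (by omega), Nat.div_eq_of_lt h, add_zero]

lemma place_mod {Q : ℕ} {R : Finset ℕ} (hR : 0 < R.card) (hr : ∀ r ∈ R, r < Q)
    (j : ℕ) : place Q R hR j % Q = (R.equivFin.symm ⟨j % R.card, Nat.mod_lt _ hR⟩ : ℕ) := by
  unfold place
  have h := hr _ (R.equivFin.symm ⟨j % R.card, Nat.mod_lt _ hR⟩).2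
  rw [Nat.mul_add_mod, Nat.mod_eq_of_lt h]

/-- the map onto the interval -/
noncomputable def fm (Q : ℕ) (R : Finset ℕ) (hR : 0 < R.card) (v : Torus F) : ℝ :=
  Real.ofDigits (b := Fintype.card F) fun j => Fintype.equivFin F (v.digit (place Q R hR j))

lemma fm_surj {Q : ℕ} {R : Finset ℕ} (hR : 0 < R.card) (hQ : 1 ≤ Q) (hr : ∀ r ∈ R, r < Q) :
    Set.Icc (0 : ℝ) 1 ⊆ fm (F := F) Q R hR '' Sup (F := F) Q R := by
  intro y hy
  obtain ⟨a, -, ha⟩ := Real.ofDigits_SurjOn (b := Fintype.card F) Fintype.one_lt_card hy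
  classical
  refine ⟨⟨fun n => if h : n % Q ∈ R then
    (Fintype.equivFin F).symm (a (R.card * (n / Q) + R.equivFin ⟨n % Q, h⟩)) else 0⟩, ?_, ?_⟩
  · intro n hn
    show (if h : n % Q ∈ R then _ else _) = _
    rw [dif_neg hn]
  · rw [← ha]
    unfold fm
    congr 1
    funext j
    have h1 := place_mod hR hr j
    have h2 : place Q R hR j % Q ∈ R := by
      rw [h1]
      exact (R.equivFin.symm ⟨j % R.card, Nat.mod_lt _ hR⟩).2
    show Fintype.equivFin F (if h : place Q R hR j % Q ∈ R then _ else _) = _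
    rw [dif_pos h2, Equiv.apply_symm_apply]
    congr 1
    have h3 : (⟨place Q R hR j % Q, h2⟩ : R) = R.equivFin.symm ⟨j % R.card, Nat.mod_lt _ hR⟩ :=
      Subtype.ext h1
    rw [h3, Equiv.apply_symm_apply, place_div hR hQ hr]
    exact Nat.div_add_mod j R.card

lemma fm_close {Q : ℕ} {R : Finset ℕ} (hR : 0 < R.card) (hr : ∀ r ∈ R, r < Q) (v v' : Torus F)
    (l : ℕ) (h : ∀ n < Q * l, v.digit n = v'.digit n) :
    |fm Q R hR v - fm Q R hR v'| ≤ ((Fintype.card F : ℝ) ^ (R.card * l))⁻¹ := by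
  unfold fm
  refine Real.abs_ofDigits_sub_ofDigits_le fun j hj => ?_
  congr 1
  refine h _ ?_
  unfold place
  have h1 := hr _ (R.equivFin.symm ⟨j % R.card, Nat.mod_lt _ hR⟩).2
  have h2 : j / R.card < l := by
    rw [Nat.div_lt_iff_lt_mul hR, mul_comm]
    exact hj
  calc _ < Q * (j / R.card) + Q := by omega
    _ = Q * (j / R.card + 1) := by ring
    _ ≤ Q * l := Nat.mul_le_mul_left _ h2

lemma fm_holder {Q : ℕ} {R : Finset ℕ} (hR : 0 < R.card) (hQ : 1 ≤ Q) (hr : ∀ r ∈ R, r < Q) :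
    HolderWith ((Fintype.card F : ℝ≥0) ^ R.card) ((R.card : ℝ≥0) / (Q : ℝ≥0))
      (fm (F := F) Q R hR) := by
  classical
  intro v v'
  have hq : (1 : ℝ) < Fintype.card F := by exact_mod_cast Fintype.one_lt_card
  have hq0 : (0 : ℝ) < Fintype.card F := by linarith
  have hr0 : (0 : ℝ) ≤ (((R.card : ℝ≥0) / (Q : ℝ≥0) : ℝ≥0) : ℝ) := NNReal.coe_nonneg _
  have key : dist (fm Q R hR v) (fm Q R hR v') ≤
      (Fintype.card F : ℝ) ^ R.card * dist v v' ^ (((R.card : ℝ≥0) / (Q : ℝ≥0) : ℝ≥0) : ℝ) := by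
    by_cases h : ∃ n, v.digit n ≠ v'.digit n
    · have hd : dist v v' = ((Fintype.card F : ℝ)⁻¹) ^ (Nat.find h + 1) := by
        show distance v v' = _
        unfold distance
        rw [dif_pos h]
      set n := Nat.find h with hn
      have h1 : ∀ k < Q * (n / Q), v.digit k = v'.digit k := by
        intro k hk
        have h2 : k < n := lt_of_lt_of_le hk (Nat.mul_div_le n Q)
        by_contra h3
        exact absurd (Nat.find_min' h h3) (by omega)
      have h2 := fm_close hR hr v v' (n / Q) h1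
      rw [Real.dist_eq]
      refine h2.trans ?_
      rw [hd, ← Real.rpow_natCast ((Fintype.card F : ℝ)⁻¹), ← Real.rpow_mul (by positivity),
        ← Real.rpow_natCast, ← Real.rpow_natCast, ← Real.rpow_neg hq0.le,
        Real.inv_rpow hq0.le, ← Real.rpow_neg hq0.le, ← Real.rpow_add hq0]
      refine Real.rpow_le_rpow_of_exponent_le hq.le ?_
      rw [NNReal.coe_div, NNReal.coe_natCast, NNReal.coe_natCast]
      push_cast
      have hQ0 : (0 : ℝ) < Q := by exact_mod_cast hQ
      have h3 : ((n : ℝ) + 1) ≤ Q * ((n / Q : ℕ) : ℝ) + Q := by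
        have h4 : n + 1 ≤ Q * (n / Q) + Q := by
          have := Nat.lt_mul_div_succ n (show 0 < Q by omega)
          calc n + 1 ≤ Q * (n / Q + 1) := this
            _ = Q * (n / Q) + Q := by ring
        exact_mod_cast h4
      have h5 : ((n : ℝ) + 1) * ((R.card : ℝ) / Q) ≤ R.card * ((n / Q : ℕ) : ℝ) + R.card := by
        rw [← mul_div_assoc, div_le_iff₀ hQ0]
        have := mul_le_mul_of_nonneg_right h3 (Nat.cast_nonneg (α := ℝ) R.card)
        linarith
      linarith
    · have hv : v = v' := by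
        ext k
        by_contra h1
        exact h ⟨k, h1⟩
      rw [hv, dist_self]
      positivity
  rw [edist_dist, edist_dist, ENNReal.ofReal_rpow_of_nonneg dist_nonneg hr0]
  refine (ENNReal.ofReal_le_ofReal key).trans (le_of_eq ?_)
  rw [ENNReal.ofReal_mul (by positivity), ENNReal.ofReal_pow hq0.le, ENNReal.ofReal_natCast]
  push_cast
  rfl

end LBaux

open LBaux in
theorem t_LB : S_LB := by
  intro F _ _ Q R hQ hr
  rcases Nat.eq_zero_or_pos R.card with h0 | hR
  · rw [h0]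
    simp
  have hQ0 : (Q : ℝ≥0) ≠ 0 := by
    have : Q ≠ 0 := by omega
    exact_mod_cast this
  have hc0 : (R.card : ℝ≥0) ≠ 0 := by
    have : R.card ≠ 0 := by omega
    exact_mod_cast this
  have hpos : 0 < (R.card : ℝ≥0) / (Q : ℝ≥0) := by positivity
  have h1 := ((fm_holder (F := F) hR hQ hr).dimH_image_le hpos (Sup (F := F) Q R))
  have h2 : (1 : ℝ≥0∞) ≤ dimH (fm (F := F) Q R hR '' Sup (F := F) Q R) := by
    refine le_trans ?_ (dimH_mono (fm_surj hR hQ hr))
    have h3 : dimH (Set.Icc (0 : ℝ) 1) = 1 := by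
      rw [Real.dimH_of_nonempty_interior]
      · simp
      · rw [interior_Icc]
        exact Set.nonempty_Ioo.2 zero_lt_one
    rw [h3]
  have h4 := h2.trans h1
  rw [ENNReal.le_div_iff_mul_le (Or.inl (by exact_mod_cast hpos.ne')) (Or.inl ENNReal.coe_ne_top),
    one_mul, ENNReal.coe_div hQ0, ENNReal.coe_natCast, ENNReal.coe_natCast] at h4
  exact h4

end Pool.Agent.H599.SP
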