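import Pool.Agent.H599.SP.Stm

set_option autoImplicit false

/-!
# GEN: a generic element supported in `K` with a rich orbit for every nonconstant polynomial
-/

open Polynomial Finset

namespace Pool.Agent.H599.SP.XGEN

open Pool.Agent.H599.FF

variable {F : Type} [Field F]

/-- the solution of `ml B z' = w` with given first digits -/
noncomputable def tri (B : F[X]) (z w : ℕ → F) : ℕ → F
  | N => if _h : N < B.natDegree then z N else
      (w (N - B.natDegree) - ∑ i : Fin B.natDegree, B.coeff i * tri B z w (N - B.natDegree + i)) /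
        B.leadingCoeff
termination_by N => N
decreasing_by
  have := i.2
  omega

theorem tri_lt (B : F[X]) (z w : ℕ → F) {N : ℕ} (h : N < B.natDegree) : tri B z w N = z N := by
  rw [tri, dif_pos h]

theorem tri_ge (B : F[X]) (z w : ℕ → F) (n : ℕ) : tri B z w (n + B.natDegree) =
    (w n - ∑ i : Fin B.natDegree, B.coeff i * tri B z w (n + i)) / B.leadingCoeff := by
  rw [tri, dif_neg (by omega)]
  simp only [Nat.add_sub_cancel]

theorem ml_tri {B : F[X]} (hB : B ≠ 0) (z w : ℕ → F) : ml B (tri B z w) = w := by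
  funext n
  unfold ml
  rw [Finset.sum_range_succ, tri_ge, Finset.sum_range (fun i => B.coeff i * tri B z w (n + i))]
  have h : B.leadingCoeff ≠ 0 := leadingCoeff_ne_zero.2 hB
  rw [Polynomial.coeff_natDegree, mul_div_cancel₀ _ h]
  ring

/-- one step of the construction -/
theorem one_step (p : ℕ) [Fact p.Prime] [CharP F p] (K : Set ℕ) (x₀ : ℕ → F)
    (h0 : ∀ n, n ∉ K → x₀ n = 0) (P k : ℕ) (A : F[X]) (hA : 1 ≤ A.natDegree) (w : ℕ → F) :
    ∃ (x : ℕ → F) (e : ℕ), (∀ n, n ∉ K → x n = 0) ∧ (∀ n < P, x n = x₀ n) ∧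
      ∀ n, (∀ l, p ^ k * l + n % p ^ k ∈ K) → ml (A ^ e) x n = w n := by
  classical
  have hp : 0 < p := (Fact.out : p.Prime).pos
  have hexp : ExpChar F p := ExpChar.prime Fact.out
  obtain ⟨Q, hQ⟩ : ∃ Q, Q = p ^ k := ⟨_, rfl⟩
  have hQ0 : 0 < Q := by rw [hQ]; positivity
  obtain ⟨G, hG⟩ : ∃ G : F[X], G = map (iterateFrobenius F p k) (A ^ P) := ⟨_, rfl⟩
  have hA0 : A ≠ 0 := by
    rintro rfl
    simp at hA
  have hinj : Function.Injective (iterateFrobenius F p k) := RingHom.injective _
  have hG0 : G ≠ 0 := by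
    rw [hG]
    exact (Polynomial.map_ne_zero_iff hinj).2 (pow_ne_zero _ hA0)
  have hGd : P ≤ G.natDegree := by
    rw [hG, Polynomial.natDegree_map_eq_of_injective hinj, natDegree_pow]
    nlinarith
  obtain ⟨good, hgood⟩ : ∃ good : ℕ → Prop, good = fun r => ∀ l, Q * l + r ∈ K := ⟨_, rfl⟩
  obtain ⟨Z, hZ⟩ : ∃ Z : ℕ → ℕ → F, Z = fun r => tri G (dec Q r x₀) (fun l => w (Q * l + r)) :=
    ⟨_, rfl⟩
  obtain ⟨x, hx⟩ : ∃ x : ℕ → F, x = fun n => if good (n % Q) then Z (n % Q) (n / Q) else x₀ n :=
    ⟨_, rfl⟩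
  refine ⟨x, P * Q, fun n hn => ?_, fun n hn => ?_, fun n hn => ?_⟩
  · have h1 : ¬ good (n % Q) := by
      intro h
      rw [hgood] at h
      have := h (n / Q)
      rw [Nat.div_add_mod] at this
      exact hn this
    rw [hx]
    simp only
    rw [if_neg h1]
    exact h0 n hn
  · rw [hx]
    simp only
    split_ifs with h
    · rw [hZ]
      simp only
      have h1 : n / Q < G.natDegree := by
        have := Nat.div_le_self n Q
        omega
      rw [tri_lt _ _ _ h1]
      unfold dec
      rw [Nat.div_add_mod]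
    · rfl
  · rw [← hQ] at hn
    have h1 : good (n % Q) := by
      rw [hgood]
      exact hn
    have h2 : dec Q (n % Q) x = Z (n % Q) := by
      funext l
      unfold dec
      have e1 : (Q * l + n % Q) % Q = n % Q := by
        rw [Nat.mul_add_mod, Nat.mod_mod]
      have e2 : (Q * l + n % Q) / Q = l := by
        rw [Nat.mul_add_div hQ0, Nat.div_eq_of_lt (Nat.mod_lt _ hQ0), add_zero]
      rw [hx]
      simp only
      rw [e1, e2, if_pos h1]
    have h3 := key (F := F) p k hQ (A ^ P) x n
    rw [← hG, h2] at h3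
    rw [pow_mul, hQ, ← h3, hZ]
    simp only
    rw [ml_tri hG0]
    rw [Nat.div_add_mod]

/-- a state of the construction: a sequence supported in `K` and the number of its fixed digits -/
structure Sta (F : Type) [Field F] (K : Set ℕ) : Type where
  /-- the sequence -/
  x : ℕ → F
  /-- the number of the fixed digits -/
  P : ℕ
  supp : ∀ n, n ∉ K → x n = 0

/-- the requirement `(k, A, l)` -/
def Req (p : ℕ) (K : Set ℕ) (t : ℕ × F[X] × List F) (y : ℕ → F) : Prop :=
  1 ≤ t.2.1.natDegree → ∃ e : ℕ, ∀ n < t.2.2.length, (∀ l, p ^ t.1 * l + n % p ^ t.1 ∈ K) →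
    ml (t.2.1 ^ e) y n = t.2.2.getD n 0

theorem next (p : ℕ) [Fact p.Prime] [CharP F p] (K : Set ℕ) (t : ℕ × F[X] × List F)
    (s : Sta F K) : ∃ s' : Sta F K, s.P < s'.P ∧ (∀ n < s.P, s'.x n = s.x n) ∧
      ∀ y : ℕ → F, (∀ n < s'.P, y n = s'.x n) → Req p K t y := by
  by_cases hA : 1 ≤ t.2.1.natDegree
  · obtain ⟨x, e, h1, h2, h3⟩ := one_step p K s.x s.supp s.P t.1 t.2.1 hA (fun n => t.2.2.getD n 0)
    refine ⟨⟨x, max (s.P + 1) (t.2.2.length + (t.2.1 ^ e).natDegree), h1⟩, ?_, h2, ?_⟩
    · exact lt_of_lt_of_le (Nat.lt_succ_self _) (le_max_left _ _)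
    · intro y hy _
      refine ⟨e, fun n hn hg => ?_⟩
      rw [← h3 n hg]
      unfold ml
      refine Finset.sum_congr rfl fun i hi => ?_
      rw [Finset.mem_range] at hi
      rw [hy (n + i)]
      refine lt_of_lt_of_le ?_ (le_max_right _ _)
      omega
  · exact ⟨⟨s.x, s.P + 1, s.supp⟩, Nat.lt_succ_self _, fun _ _ => rfl, fun y _ h => absurd h hA⟩

end Pool.Agent.H599.SP.XGEN

namespace Pool.Agent.H599.SP

open XGEN in
theorem t_GEN : S_GEN := by
  classical
  intro F _ _ p _ _ K
  have hc : Countable (ℕ × F[X] × List F) := by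
    have : Countable F := Finite.to_countable
    have : Countable F[X] := by
      have h : Function.Surjective (fun l : List F =>
          ∑ i ∈ Finset.range l.length, C (l.getD i 0) * (X : F[X]) ^ i) := by
        intro g
        refine ⟨(List.range (g.natDegree + 1)).map g.coeff, ?_⟩
        simp only [List.length_map, List.length_range]
        conv_rhs => rw [Polynomial.as_sum_range_C_mul_X_pow g]
        refine Finset.sum_congr rfl fun i hi => ?_
        rw [Finset.mem_range] at hi
        congr 2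
        rw [List.getD_eq_getElem?_getD, List.getElem?_map, List.getElem?_range hi]
        rfl
      exact h.countable
    infer_instance
  obtain ⟨f, hf⟩ := exists_surjective_nat (ℕ × F[X] × List F)
  choose nx h1 h2 h3 using next (F := F) p K
  let s : ℕ → Sta F K := fun i => Nat.rec ⟨fun _ => 0, 0, fun _ _ => rfl⟩ (fun i st => nx (f i) st) i
  have hs : ∀ i, s (i + 1) = nx (f i) (s i) := fun i => rfl
  have hP : ∀ i, i ≤ (s i).P := by
    intro i
    induction i with
    | zero => exact Nat.zero_le _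
    | succ i ih =>
      have := h1 (f i) (s i)
      rw [hs]
      omega
  have hmono : ∀ i d, (s i).P ≤ (s (i + d)).P ∧ ∀ n < (s i).P, (s (i + d)).x n = (s i).x n := by
    intro i d
    induction d with
    | zero => exact ⟨le_rfl, fun _ _ => rfl⟩
    | succ d ih =>
      have e1 := h1 (f (i + d)) (s (i + d))
      have e2 := h2 (f (i + d)) (s (i + d))
      rw [← hs] at e1 e2
      refine ⟨ih.1.trans e1.le, fun n hn => ?_⟩
      have := e2 n (lt_of_lt_of_le hn ih.1)
      rw [← add_assoc, this]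
      exact ih.2 n hn
  let x : ℕ → F := fun n => (s (n + 1)).x n
  have hx : ∀ i n, n < (s i).P → x n = (s i).x n := by
    intro i n hn
    show (s (n + 1)).x n = (s i).x n
    rcases le_total i (n + 1) with h | h
    · obtain ⟨d, hd⟩ := Nat.exists_eq_add_of_le h
      rw [hd]
      exact (hmono i d).2 n hn
    · obtain ⟨d, hd⟩ := Nat.exists_eq_add_of_le h
      have h4 := (hmono (n + 1) d).2 n (lt_of_lt_of_le (Nat.lt_succ_self n) (hP (n + 1)))
      rw [← hd] at h4
      exact h4.symm
  refine ⟨x, fun n hn => (s (n + 1)).supp n hn, fun k A hA L w => ?_⟩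
  obtain ⟨i, hi⟩ := hf (k, A, (List.range L).map w)
  have h4 := h3 (f i) (s i) x (fun n hn => hx (i + 1) n hn)
  rw [hi] at h4
  obtain ⟨e, he⟩ := h4 hA
  refine ⟨e, fun n hn hg => ?_⟩
  have h5 := he n (by simpa using hn) hg
  rw [h5]
  simp [List.getD_eq_getElem?_getD, hn]

end Pool.Agent.H599.SP
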