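import Pool.Agent.H599.SP.Stm

/-!
# SP-KS: sets of natural numbers of p-adic density `α` (reversed digits)
-/

set_option autoImplicit false
set_option linter.unusedVariables false

namespace Pool.Agent.H599.SP

namespace KSaux

/-- reversal of the lowest `k` digits -/
def rho (p : ℕ) : ℕ → ℕ → ℕ
  | 0, _ => 0
  | k + 1, r => p ^ k * (r % p) + rho p k (r / p)

variable {p : ℕ} (hp : 2 ≤ p)

include hp

lemma rho_lt (k : ℕ) : ∀ r, rho p k r < p ^ k := by
  induction k with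
  | zero => intro r; exact Nat.one_pos
  | succ k ih =>
    intro r
    have h1 := ih (r / p)
    have h2 : r % p < p := Nat.mod_lt _ (by omega)
    change p ^ k * (r % p) + rho p k (r / p) < p ^ (k + 1)
    have h3 : p ^ k * (r % p + 1) ≤ p ^ k * p := Nat.mul_le_mul_left _ h2
    rw [pow_succ]
    rw [Nat.mul_add, Nat.mul_one] at h3
    omega

lemma rho_inj (k : ℕ) : ∀ r s, r < p ^ k → s < p ^ k → rho p k r = rho p k s → r = s := by
  induction k with
  | zero =>
    intro r s hr hs _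
    rw [pow_zero] at hr hs
    omega
  | succ k ih =>
    intro r s hr hs h
    have h' : p ^ k * (r % p) + rho p k (r / p) = p ^ k * (s % p) + rho p k (s / p) := h
    have h1 := rho_lt hp k (r / p)
    have h2 := rho_lt hp k (s / p)
    have hpos : 0 < p ^ k := Nat.pow_pos (by omega)
    have h3 : r % p = s % p := by
      have e1 : (p ^ k * (r % p) + rho p k (r / p)) / p ^ k = r % p := by
        rw [Nat.mul_add_div hpos, Nat.div_eq_of_lt h1, Nat.add_zero]
      have e2 : (p ^ k * (s % p) + rho p k (s / p)) / p ^ k = s % p := by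
        rw [Nat.mul_add_div hpos, Nat.div_eq_of_lt h2, Nat.add_zero]
      rw [← e1, ← e2, h']
    rw [h3] at h'
    have h4 : rho p k (r / p) = rho p k (s / p) := Nat.add_left_cancel h'
    have h5 : r / p < p ^ k := by
      rw [Nat.div_lt_iff_lt_mul (by omega), ← pow_succ]
      exact hr
    have h6 : s / p < p ^ k := by
      rw [Nat.div_lt_iff_lt_mul (by omega), ← pow_succ]
      exact hs
    have h7 := ih _ _ h5 h6 h4
    rw [← Nat.div_add_mod r p, ← Nat.div_add_mod s p, h7, h3]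

omit hp in
lemma rho_zero (k : ℕ) : rho p k 0 = 0 := by
  induction k with
  | zero => rfl
  | succ k ih =>
    change p ^ k * (0 % p) + rho p k (0 / p) = 0
    rw [Nat.zero_mod, Nat.zero_div, ih, Nat.mul_zero]

lemma rho_add (m : ℕ) (k : ℕ) : ∀ l r, r < p ^ k →
    rho p (k + m) (p ^ k * l + r) = p ^ m * rho p k r + rho p m l := by
  induction k with
  | zero =>
    intro l r hr
    rw [pow_zero] at hr
    have : r = 0 := by omega
    subst this
    rw [Nat.zero_add, pow_zero, Nat.one_mul, Nat.add_zero]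
    change rho p m l = p ^ m * 0 + rho p m l
    rw [Nat.mul_zero, Nat.zero_add]
  | succ k ih =>
    intro l r hr
    have h0 : k + 1 + m = (k + m) + 1 := by omega
    rw [h0]
    change p ^ (k + m) * ((p ^ (k + 1) * l + r) % p) + rho p (k + m) ((p ^ (k + 1) * l + r) / p) =
      p ^ m * (p ^ k * (r % p) + rho p k (r / p)) + rho p m l
    have h1 : p ^ (k + 1) * l + r = p * (p ^ k * l) + r := by ring
    have h2 : (p ^ (k + 1) * l + r) % p = r % p := by
      rw [h1, Nat.mul_add_mod]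
    have h3 : (p ^ (k + 1) * l + r) / p = p ^ k * l + r / p := by
      rw [h1, Nat.mul_add_div (by omega)]
    have h5 : r / p < p ^ k := by
      rw [Nat.div_lt_iff_lt_mul (by omega), ← pow_succ]
      exact hr
    rw [h2, h3, ih l (r / p) h5, pow_add]
    ring

/-- the set of numbers with radical inverse less than `α` -/
def KK (p : ℕ) (α : ℝ) : Set ℕ := {n | (rho p n n : ℝ) < α * (p : ℝ) ^ n}

lemma mem_KK (α : ℝ) (m n : ℕ) (hn : n < p ^ m) :
    n ∈ KK p α ↔ (rho p m n : ℝ) < α * (p : ℝ) ^ m := by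
  have h1 : n < p ^ n := Nat.lt_pow_self (by omega)
  have h2 := rho_add hp m n 0 n h1
  have h3 := rho_add hp n m 0 n hn
  rw [Nat.mul_zero, Nat.zero_add, rho_zero, Nat.add_zero] at h2 h3
  rw [Nat.add_comm m n, h2] at h3
  have h4 : (p : ℝ) ^ m * (rho p n n : ℝ) = (p : ℝ) ^ n * (rho p m n : ℝ) := by exact_mod_cast h3
  have hp0 : (0 : ℝ) < p := by
    have : 0 < p := by omega
    exact_mod_cast this
  have hm : (0 : ℝ) < (p : ℝ) ^ m := pow_pos hp0 m
  have hnn : (0 : ℝ) < (p : ℝ) ^ n := pow_pos hp0 n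
  constructor
  · intro h
    have h' : (rho p n n : ℝ) < α * (p : ℝ) ^ n := h
    have h5 : (p : ℝ) ^ m * (rho p n n : ℝ) < (p : ℝ) ^ m * (α * (p : ℝ) ^ n) :=
      mul_lt_mul_of_pos_left h' hm
    rw [h4] at h5
    have h6 : (p : ℝ) ^ n * (rho p m n : ℝ) < (p : ℝ) ^ n * (α * (p : ℝ) ^ m) := by
      linarith
    exact lt_of_mul_lt_mul_left h6 hnn.le
  · intro h
    change (rho p n n : ℝ) < α * (p : ℝ) ^ n
    have h5 : (p : ℝ) ^ n * (rho p m n : ℝ) < (p : ℝ) ^ n * (α * (p : ℝ) ^ m) :=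
      mul_lt_mul_of_pos_left h hnn
    rw [← h4] at h5
    have h6 : (p : ℝ) ^ m * (rho p n n : ℝ) < (p : ℝ) ^ m * (α * (p : ℝ) ^ n) := by
      linarith
    exact lt_of_mul_lt_mul_left h6 hm.le

lemma mem_KK2 (α : ℝ) (k l r : ℕ) (hr : r < p ^ k) :
    p ^ k * l + r ∈ KK p α ↔
      (p : ℝ) ^ l * (rho p k r : ℝ) + (rho p l l : ℝ) < α * ((p : ℝ) ^ k * (p : ℝ) ^ l) := by
  have h1 : l < p ^ l := Nat.lt_pow_self (by omega)
  have h2 : p ^ k * l + r < p ^ (k + l) := by
    rw [pow_add]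
    have h3 : p ^ k * (l + 1) ≤ p ^ k * p ^ l := Nat.mul_le_mul_left _ h1
    rw [Nat.mul_add, Nat.mul_one] at h3
    omega
  rw [mem_KK hp α (k + l) _ h2, rho_add hp l k l r hr, pow_add]
  push_cast
  rfl

/-- counting -/
lemma card_G (k c : ℕ) (hc : c ≤ p ^ k) :
    ((Finset.range (p ^ k)).filter fun r => rho p k r < c).card = c := by
  have hinj : Set.InjOn (rho p k) (Finset.range (p ^ k) : Set ℕ) := by
    intro r hr s hs h
    exact rho_inj hp k r s (Finset.mem_range.1 hr) (Finset.mem_range.1 hs) h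
  have himg : (Finset.range (p ^ k)).image (rho p k) = Finset.range (p ^ k) := by
    apply Finset.eq_of_subset_of_card_le
    · intro y hy
      obtain ⟨r, -, rfl⟩ := Finset.mem_image.1 hy
      exact Finset.mem_range.2 (rho_lt hp k r)
    · rw [Finset.card_image_of_injOn hinj]
  have h1 : ((Finset.range (p ^ k)).filter fun r => rho p k r < c).image (rho p k) =
      Finset.range c := by
    ext y
    rw [Finset.mem_image, Finset.mem_range]
    constructor
    · rintro ⟨r, hr, rfl⟩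
      exact (Finset.mem_filter.1 hr).2
    · intro hy
      have h2 : y ∈ (Finset.range (p ^ k)).image (rho p k) := by
        rw [himg, Finset.mem_range]
        omega
      obtain ⟨r, hr, rfl⟩ := Finset.mem_image.1 h2
      exact ⟨r, Finset.mem_filter.2 ⟨hr, hy⟩, rfl⟩
  have h2 := congrArg Finset.card h1
  rw [Finset.card_range, Finset.card_image_of_injOn] at h2
  · exact h2
  · intro r hr s hs h
    exact hinj (Finset.mem_filter.1 hr).1 (Finset.mem_filter.1 hs).1 h

end KSaux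

open KSaux in
theorem t_KS : S_KS := by
  intro p hp α hα0 hα1
  have hp0 : (0 : ℝ) < p := by
    have : 0 < p := by omega
    exact_mod_cast this
  refine ⟨KK p α, fun k => ?_⟩
  have hk : (0 : ℝ) < (p : ℝ) ^ k := pow_pos hp0 k
  have hx0 : 0 ≤ α * (p : ℝ) ^ k := mul_nonneg hα0 hk.le
  have hx1 : α * (p : ℝ) ^ k ≤ ((p ^ k : ℕ) : ℝ) := by
    push_cast
    exact mul_le_of_le_one_left hk.le hα1
  constructor
  · have hsub : {r : ℕ | r < p ^ k ∧ ∃ l, p ^ k * l + r ∈ KK p α} ⊆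
        (((Finset.range (p ^ k)).filter fun r => rho p k r < ⌈α * (p : ℝ) ^ k⌉₊ : Finset ℕ) :
          Set ℕ) := by
      rintro r ⟨hr, l, hl⟩
      rw [mem_KK2 hp α k l r hr] at hl
      refine Finset.mem_coe.2 (Finset.mem_filter.2 ⟨Finset.mem_range.2 hr, ?_⟩)
      rw [Nat.lt_ceil]
      have h1 : (0 : ℝ) ≤ (rho p l l : ℝ) := Nat.cast_nonneg _
      have h2 : (0 : ℝ) < (p : ℝ) ^ l := pow_pos hp0 l
      have h3 : (p : ℝ) ^ l * (rho p k r : ℝ) < (p : ℝ) ^ l * (α * (p : ℝ) ^ k) := by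
        linarith
      exact lt_of_mul_lt_mul_left h3 h2.le
    have h1 := Set.ncard_le_ncard hsub (Finset.finite_toSet _)
    rw [Set.ncard_coe_finset, card_G hp k _ (Nat.ceil_le.2 hx1)] at h1
    have h2 : (⌈α * (p : ℝ) ^ k⌉₊ : ℝ) < α * (p : ℝ) ^ k + 1 := Nat.ceil_lt_add_one hx0
    have h3 : (({r : ℕ | r < p ^ k ∧ ∃ l, p ^ k * l + r ∈ KK p α}.ncard : ℕ) : ℝ) ≤
        (⌈α * (p : ℝ) ^ k⌉₊ : ℝ) := by exact_mod_cast h1
    linarith
  · have hsub : (((Finset.range (p ^ k)).filter fun r => rho p k r < ⌊α * (p : ℝ) ^ k⌋₊ :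
        Finset ℕ) : Set ℕ) ⊆ {r : ℕ | r < p ^ k ∧ ∀ l, p ^ k * l + r ∈ KK p α} := by
      intro r hr
      obtain ⟨hr1, hr2⟩ := Finset.mem_filter.1 (Finset.mem_coe.1 hr)
      have hr1' := Finset.mem_range.1 hr1
      refine ⟨hr1', fun l => ?_⟩
      rw [mem_KK2 hp α k l r hr1']
      have h1 : (rho p l l : ℝ) < (p : ℝ) ^ l := by
        have := rho_lt hp l l
        exact_mod_cast this
      have h2 : (0 : ℝ) < (p : ℝ) ^ l := pow_pos hp0 l
      have h3 : ((rho p k r : ℝ)) + 1 ≤ α * (p : ℝ) ^ k := by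
        have h4 : ((rho p k r + 1 : ℕ) : ℝ) ≤ (⌊α * (p : ℝ) ^ k⌋₊ : ℝ) := by
          exact_mod_cast hr2
        have h5 : (⌊α * (p : ℝ) ^ k⌋₊ : ℝ) ≤ α * (p : ℝ) ^ k := Nat.floor_le hx0
        push_cast at h4
        linarith
      have h4 : (p : ℝ) ^ l * ((rho p k r : ℝ) + 1) ≤ (p : ℝ) ^ l * (α * (p : ℝ) ^ k) :=
        mul_le_mul_of_nonneg_left h3 h2.le
      linarith
    have hfin : {r : ℕ | r < p ^ k ∧ ∀ l, p ^ k * l + r ∈ KK p α}.Finite :=
      (Set.finite_Iio (p ^ k)).subset fun r hr => hr.1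
    have h1 := Set.ncard_le_ncard hsub hfin
    have hfl : ⌊α * (p : ℝ) ^ k⌋₊ ≤ p ^ k := by
      have h5 : (⌊α * (p : ℝ) ^ k⌋₊ : ℝ) ≤ ((p ^ k : ℕ) : ℝ) := (Nat.floor_le hx0).trans hx1
      exact_mod_cast h5
    rw [Set.ncard_coe_finset, card_G hp k _ hfl] at h1
    have h2 : α * (p : ℝ) ^ k < (⌊α * (p : ℝ) ^ k⌋₊ : ℝ) + 1 := Nat.lt_floor_add_one _
    have h3 : (⌊α * (p : ℝ) ^ k⌋₊ : ℝ) ≤
        (({r : ℕ | r < p ^ k ∧ ∀ l, p ^ k * l + r ∈ KK p α}.ncard : ℕ) : ℝ) := by
      exact_mod_cast h1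
    linarith

end Pool.Agent.H599.SP
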