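import Pool.Agent.H599.SP.Stm

set_option autoImplicit false

/-!
# The orbits of rational elements have finite closure (helper252)
-/

open Polynomial Filter Topology
open scoped ENNReal NNReal
open Pool.Agent.H599.Tor

namespace Pool.Agent.H599.SP

namespace Rat252

variable {F : Type} [Field F]

/-- the elements which are killed by `B` -/
def Zs (B : F[X]) : Set (Torus F) := {y | ∀ n, (mul B y).digit n = 0}

theorem orbit_sub (x : Torus F) (B : F[X]) (hx : ∀ n, (mul B x).digit n = 0) (m : ℕ)
    (A : Fin m → F[X]) : orbit A x ⊆ Zs B := by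
  rintro _ ⟨e, rfl⟩ n
  have h0 : Pool.Agent.H599.FF.ml B x.digit = 0 := by
    funext k
    exact hx k
  show Pool.Agent.H599.FF.ml B (Pool.Agent.H599.FF.ml (∏ i, A i ^ e i) x.digit) n = 0
  rw [← Pool.Agent.H599.FF.ml_mul, mul_comm, Pool.Agent.H599.FF.ml_mul, h0,
    Pool.Agent.H599.FF.ml_eq, map_zero]
  rfl

theorem closed [Fintype F] (B : F[X]) (E : Set (Torus F)) (hE : E ⊆ Zs B) :
    closure E ⊆ Zs B := by
  intro y hy n
  have hq : (1 : ℝ) < Fintype.card F := by exact_mod_cast Fintype.one_lt_card
  obtain ⟨z, hz, hd⟩ := Metric.mem_closure_iff.1 hy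
    (((Fintype.card F : ℝ)⁻¹) ^ (n + B.natDegree + 1 + 1)) (by positivity)
  have h1 := (distance_le y z (n + B.natDegree + 1)).1 hd.le
  rw [← hE hz n]
  show ∑ i ∈ Finset.range (B.natDegree + 1), B.coeff i * y.digit (n + i) =
    ∑ i ∈ Finset.range (B.natDegree + 1), B.coeff i * z.digit (n + i)
  refine Finset.sum_congr rfl fun i hi => ?_
  rw [h1 (n + i) (by
    have := Finset.mem_range.1 hi
    omega)]

theorem fin [Fintype F] (B : F[X]) (hB : B ≠ 0) : (Zs B).Finite := by
  refine Set.Finite.of_injOn (f := fun (y : Torus F) (i : Fin B.natDegree) => y.digit i)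
    (t := Set.univ) (Set.mapsTo_univ _ _) ?_ Set.finite_univ
  intro y hy z hz h
  have hl : B.coeff B.natDegree ≠ 0 := by
    rw [coeff_natDegree]
    exact leadingCoeff_ne_zero.2 hB
  ext n
  induction n using Nat.strong_induction_on with
  | _ n ih =>
    by_cases hn : n < B.natDegree
    · exact congrFun h ⟨n, hn⟩
    · have h1 : ∑ i ∈ Finset.range (B.natDegree + 1), B.coeff i * y.digit (n - B.natDegree + i) =
          0 := hy (n - B.natDegree)
      have h2 : ∑ i ∈ Finset.range (B.natDegree + 1), B.coeff i * z.digit (n - B.natDegree + i) =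
          0 := hz (n - B.natDegree)
      have h3 : n - B.natDegree + B.natDegree = n := by omega
      rw [Finset.sum_range_succ, h3] at h1 h2
      have h4 : ∑ i ∈ Finset.range B.natDegree, B.coeff i * y.digit (n - B.natDegree + i) =
          ∑ i ∈ Finset.range B.natDegree, B.coeff i * z.digit (n - B.natDegree + i) := by
        refine Finset.sum_congr rfl fun i hi => ?_
        rw [ih _ (by
          have := Finset.mem_range.1 hi
          omega)]
      rw [h4] at h1
      exact mul_left_cancel₀ hl (add_left_cancel (h1.trans h2.symm))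

end Rat252

theorem t_RAT : S_RAT := by
  intro F _ _ x B hB hx m A
  have h1 := Rat252.closed B _ (Rat252.orbit_sub x B hx m A)
  have h2 := (Rat252.fin B hB).dimH_zero
  exact le_antisymm (h2 ▸ dimH_mono h1) zero_le

end Pool.Agent.H599.SP
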